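import Mathlib
import Pool.Agent.H57.Cong

namespace Pool.Agent.Results.MP_025f5d_nt.Fails

open Finset Pool.Agent.H57.Cong

/-- Pell numbers -/
def P : ℕ → ℤ
  | 0 => 0
  | 1 => 1
  | n + 2 => 2 * P (n + 1) + P n

/-- the second sum -/
def S2 (p : ℕ) : ℚ := ∑ k ∈ range p, (k : ℚ) * P k / (-8) ^ k * ((2 * k).choose k : ℚ) ^ 2

/-- Part (b) of Q1 fails. -/
theorem result : ¬ ∀ p : ℕ, p.Prime → 3 < p → (p % 8 = 1 ∨ p % 8 = 3) → ∀ x y : ℤ,
    (p : ℤ) = x ^ 2 + 2 * y ^ 2 → (x % 8 = 1 ∨ x % 8 = 3) →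
    Cong p 2 (S2 p) ((-1) ^ ((x + 1) / 2) / 2 * (x + p / (2 * x))) := by
  intro h
  have := h 11 (by norm_num) (by norm_num) (by norm_num) 3 1 (by norm_num) (by norm_num)
  refine not_cong (by norm_num) ?_ this
  simp only [S2, Nat.choose_eq_descFactorial_div_factorial]
  decide +kernel

end Pool.Agent.Results.MP_025f5d_nt.Fails
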